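import Pool.Agent.U307.RAD.Stm3
import Pool.Agent.H153R4.Pl

/-!
# Project RAD, package PLA

The inequality of Plancherel on the half line.
-/

set_option autoImplicit false

open MeasureTheory Filter Topology Set FourierTransform
open scoped ENNReal

namespace Pool.Agent.U333.RAD

open Pool.Agent.U307.RAD

theorem t_PLA : S_PLA := by
  intro f hc h1 h2 F hF hb
  set h : ℝ → ℂ := (Ioi (0 : ℝ)).indicator (fun y => (f y : ℂ)) with hh
  have i1 : Integrable h := by
    rw [hh, integrable_indicator_iff measurableSet_Ioi]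
    exact h1.ofReal
  have e0 : ∀ y, ‖h y‖ ^ 2 = (Ioi (0 : ℝ)).indicator (fun y => f y ^ 2) y := by
    intro y
    by_cases hy : y ∈ Ioi (0 : ℝ)
    · simp [hh, hy, Complex.norm_real]
    · simp [hh, hy]
  have i2 : MemLp h 2 := by
    rw [memLp_two_iff_integrable_sq_norm i1.aestronglyMeasurable]
    have : (fun y => ‖h y‖ ^ 2) = (Ioi (0 : ℝ)).indicator (fun y => f y ^ 2) := funext e0
    rw [this, integrable_indicator_iff measurableSet_Ioi]
    exact h2
  have pl := Pool.Agent.H153R4.plancherel h i1 i2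
  have ft : ∀ ξ : ℝ, 𝓕 h ξ = ∫ y in Ioi (0 : ℝ), ((f y : ℝ) : ℂ) *
      Complex.exp (-(Complex.I * ((2 * Real.pi * ξ : ℝ) : ℂ) * y)) := by
    intro ξ
    rw [Real.fourier_real_eq_integral_exp_smul, ← integral_indicator measurableSet_Ioi]
    refine integral_congr_ae (Eventually.of_forall fun y => ?_)
    by_cases hy : y ∈ Ioi (0 : ℝ)
    · simp only [hh, hy, indicator_of_mem, smul_eq_mul]
      rw [mul_comm]
      congr 2
      push_cast
      ring
    · simp [hh, hy]
  have b : ∀ ξ : ℝ, ‖𝓕 h ξ‖ ^ 2 ≤ F (2 * Real.pi * ξ) := by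
    intro ξ
    rw [ft]
    exact hb (2 * Real.pi * ξ)
  have hFc : Integrable (fun ξ : ℝ => F (2 * Real.pi * ξ)) :=
    hF.comp_mul_left' (by positivity)
  have hF0 : ∀ ξ : ℝ, 0 ≤ F (2 * Real.pi * ξ) := fun ξ => le_trans (by positivity) (b ξ)
  have q1 : ENNReal.ofReal (∫ y in Ioi (0 : ℝ), f y ^ 2) = ∫⁻ x, ‖h x‖ₑ ^ 2 := by
    rw [← integral_indicator measurableSet_Ioi]
    have : (Ioi (0 : ℝ)).indicator (fun y => f y ^ 2) = fun y => ‖h y‖ ^ 2 := (funext e0).symm
    rw [this, ofReal_integral_eq_lintegral_ofReal]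
    · refine lintegral_congr fun x => ?_
      rw [ENNReal.ofReal_pow (norm_nonneg _), ofReal_norm_eq_enorm]
    · rw [← memLp_two_iff_integrable_sq_norm i1.aestronglyMeasurable]
      exact i2
    · exact Eventually.of_forall fun x => by positivity
  have q2 : ∫⁻ ξ, ‖𝓕 h ξ‖ₑ ^ 2 ≤ ENNReal.ofReal (1 / (2 * Real.pi) * ∫ t, F t) := by
    have e1 : 1 / (2 * Real.pi) * ∫ t, F t = ∫ ξ, F (2 * Real.pi * ξ) := by
      rw [Measure.integral_comp_mul_left]
      rw [abs_of_pos (by positivity), smul_eq_mul, one_div]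
    rw [e1, ofReal_integral_eq_lintegral_ofReal hFc (Eventually.of_forall hF0)]
    refine lintegral_mono fun ξ => ?_
    rw [← ofReal_norm_eq_enorm, ← ENNReal.ofReal_pow (norm_nonneg _)]
    exact ENNReal.ofReal_le_ofReal (b ξ)
  have q3 : ENNReal.ofReal (∫ y in Ioi (0 : ℝ), f y ^ 2) ≤
      ENNReal.ofReal (1 / (2 * Real.pi) * ∫ t, F t) := by
    rw [q1, ← pl]; exact q2
  have q4 : 0 ≤ 1 / (2 * Real.pi) * ∫ t, F t := by
    have e1 : 1 / (2 * Real.pi) * ∫ t, F t = ∫ ξ, F (2 * Real.pi * ξ) := by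
      rw [Measure.integral_comp_mul_left]
      rw [abs_of_pos (by positivity), smul_eq_mul, one_div]
    rw [e1]
    exact integral_nonneg hF0
  exact (ENNReal.ofReal_le_ofReal_iff q4).mp q3

end Pool.Agent.U333.RAD
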